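import Pool.Agent.Helper69.UX.StE

/-! Project UX, module ECL: existence of good colourings. -/

set_option autoImplicit false

namespace Pool.Agent.Helper94.UX

open Finset Filter Pool.Agent.Helper82.CN Pool.Agent.Helper11.PV Pool.Agent.Helper69.VX
  Pool.Agent.Helper69.UX

theorem PP_mono' {p : ℝ} (h0 : 0 ≤ p) (h1 : p ≤ 1) {ι : Type} [Fintype ι] [DecidableEq ι]
    {A B : (ι → Bool) → Prop} (h : ∀ ω, A ω → B ω) : PP p A ≤ PP p B := by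
  unfold PP
  refine EE_mono h0 h1 (fun ω => ?_)
  by_cases hA : A ω
  · simp only [hA, h ω hA, if_true, le_refl]
  · simp only [hA, if_false]
    split_ifs <;> norm_num

/-- numerical conditions -/
theorem ecl_num {ε : ℝ} (hε : 0 < ε) : ∃ n0 : ℕ, 1 ≤ n0 ∧ ∀ n : ℕ, n0 ≤ n →
    3 * Real.log n ≤ 5 * (n : ℝ) ^ (3 * ε) ∧ 8 ≤ (n : ℝ) ^ (3 * ε / 2) := by
  have h1 : Tendsto (fun n : ℕ => (n : ℝ) ^ (3 * ε / 2)) atTop atTop :=
    (tendsto_rpow_atTop (by positivity)).comp tendsto_natCast_atTop_atTop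
  have h2 := (isLittleO_log_rpow_atTop (by positivity : (0 : ℝ) < 3 * ε)).def
    (by norm_num : (0 : ℝ) < 5 / 3)
  have h3 := tendsto_natCast_atTop_atTop (R := ℝ) |>.eventually h2
  obtain ⟨N, hN⟩ := Filter.eventually_atTop.mp ((h1.eventually_ge_atTop 8).and h3)
  refine ⟨max N 1, le_max_right _ _, ?_⟩
  intro n hn
  obtain ⟨a, b⟩ := hN n (le_trans (le_max_left _ _) hn)
  refine ⟨?_, a⟩
  have hn1 : (1 : ℝ) ≤ n := by exact_mod_cast le_trans (le_max_right _ _) hn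
  rw [Real.norm_eq_abs, Real.norm_eq_abs, abs_of_nonneg (Real.log_nonneg hn1),
    abs_of_nonneg (by positivity)] at b
  linarith

theorem hECL : StESM → StPZW → StAZU → StMKS → StECL := by
  intro hESM hPZW hAZU hMKS p ε C hp hp1 hε hε1 hC
  obtain ⟨δ, hδ, n1, H1⟩ := hESM p ε C hp hp1 hε hε1 hC
  obtain ⟨n2, H2⟩ := hPZW p ε hp hp1 hε hε1
  obtain ⟨n3, H3⟩ := hMKS p ε hp hp1 hε hε1
  obtain ⟨n4, hn4, H4⟩ := ecl_num hε
  refine ⟨δ, hδ, max (max n1 n2) (max n3 n4), ?_⟩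
  intro n T th κ lam mu hn hW hPar
  have hn1 : n1 ≤ n := le_trans (le_trans (le_max_left _ _) (le_max_left _ _)) hn
  have hn2 : n2 ≤ n := le_trans (le_trans (le_max_right _ _) (le_max_left _ _)) hn
  have hn3 : n3 ≤ n := le_trans (le_trans (le_max_left _ _) (le_max_right _ _)) hn
  have hn4' : n4 ≤ n := le_trans (le_trans (le_max_right _ _) (le_max_right _ _)) hn
  have hnn : 1 ≤ n := le_trans hn4 hn4'
  have hnR : (1 : ℝ) ≤ n := by exact_mod_cast hnn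
  have hn0 : (0 : ℝ) < n := by linarith
  have hp2 : p ≤ 1 := by
    have : (0 : ℝ) < 1 / Real.exp 2 := by positivity
    linarith
  obtain ⟨𝓔, kT, k, I, hne, hE, hk, hsum⟩ := H1 n T th κ lam mu hn1 hW hPar
  obtain ⟨_, _, _, hM1, _, hM2, _⟩ := H3 n T th hn3 hW
  obtain ⟨hlog, h8⟩ := H4 n hn4'
  have hM0 : 0 < Mk p n T := lt_of_lt_of_le (Real.rpow_pos_of_pos hn0 _) hM1
  set ρ : ℝ := Real.exp ((kT : ℝ) ^ 2 / Real.exp (hv p n T) + 2 * (n : ℝ) ^ (3 * ε)) with hρ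
  have hρ0 : 0 < ρ := Real.exp_pos _
  have hP := H2 n T th 𝓔 kT k I ρ hn2 hW hne hE hρ0 hsum
  have hpow : (n : ℝ) ^ ε ≤ (n : ℝ) ^ (3 * ε) :=
    Real.rpow_le_rpow_of_exponent_le hnR (by linarith)
  have hP2 : Real.exp (-(5 * (n : ℝ) ^ (3 * ε))) ≤
      PP p (fun ω : Sym2 (Fin n) → Bool => ch (gr ω) ≤ k) := by
    refine le_trans ?_ hP
    rw [hρ, ← Real.exp_sub]
    apply Real.exp_le_exp.mpr
    have : (kT : ℝ) ^ 2 / Real.exp (hv p n T) ≤ (kT : ℝ) ^ 2 / Mk p n T :=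
      div_le_div_of_nonneg_left (by positivity) hM0 hM2
    linarith
  have hm0 : 0 ≤ 5 * (n : ℝ) ^ (3 * ε) := by positivity
  have hA := hAZU p (5 * (n : ℝ) ^ (3 * ε)) n k hp.le hp2 hnn hm0 hP2
  have hexp : Real.exp (-(5 * (n : ℝ) ^ (3 * ε))) ≤ (n : ℝ) ^ (-(3 : ℝ)) := by
    rw [Real.rpow_def_of_pos hn0 (-3)]
    apply Real.exp_le_exp.mpr
    linarith
  refine le_trans (le_trans (PP_mono' hp.le hp2 ?_) hA) hexp
  intro ω hω
  refine lt_of_le_of_lt ?_ hω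
  -- the scalar inequality
  have hsq : √(2 * n * (5 * (n : ℝ) ^ (3 * ε))) ≤ 7 / 2 * (n : ℝ) ^ (1 / 2 + 3 * ε / 2) := by
    rw [Real.sqrt_le_left (by positivity)]
    have e1 : ((n : ℝ) ^ (1 / 2 + 3 * ε / 2)) ^ 2 = n * (n : ℝ) ^ (3 * ε) := by
      rw [← Real.rpow_natCast, ← Real.rpow_mul hn0.le]
      have : (1 / 2 + 3 * ε / 2) * ((2 : ℕ) : ℝ) = 1 + 3 * ε := by push_cast; ring
      rw [this, Real.rpow_add hn0, Real.rpow_one]
    rw [mul_pow, e1]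
    have : 0 ≤ n * (n : ℝ) ^ (3 * ε) := by positivity
    nlinarith
  have hth := hW.2.1
  have e2 : (n : ℝ) ^ ε ≤ (n : ℝ) ^ (1 / 2 + 3 * ε / 2) :=
    Real.rpow_le_rpow_of_exponent_le hnR (by linarith)
  have e3 : 8 * (n : ℝ) ^ (1 / 2 + 3 * ε / 2) ≤ (n : ℝ) ^ (th + 3 * ε) := by
    calc 8 * (n : ℝ) ^ (1 / 2 + 3 * ε / 2)
        ≤ (n : ℝ) ^ (3 * ε / 2) * (n : ℝ) ^ (1 / 2 + 3 * ε / 2) :=
          mul_le_mul_of_nonneg_right h8 (by positivity)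
      _ = (n : ℝ) ^ (3 * ε / 2 + (1 / 2 + 3 * ε / 2)) := (Real.rpow_add hn0 _ _).symm
      _ ≤ (n : ℝ) ^ (th + 3 * ε) := Real.rpow_le_rpow_of_exponent_le hnR (by linarith)
  linarith

end Pool.Agent.Helper94.UX
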