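import Pool.Agent.Helper69.UX.StD

/-! Project UX, module NIO: bound for `Ω`. -/

set_option autoImplicit false

namespace Pool.Agent.Helper94.UX

open Finset Filter Pool.Agent.Helper82.CN Pool.Agent.Helper11.PV Pool.Agent.Helper69.VX
  Pool.Agent.Helper69.UX

theorem nio_term {p : ℝ} (hq : 0 < 1 - p) {n : ℕ} (hn : 0 < n) (v : ℕ) :
    (n : ℝ) ^ v * om p v = Real.exp (hv p n v) := by
  have hn' : (0 : ℝ) < n := by exact_mod_cast hn
  have hf : (0 : ℝ) < (v.factorial : ℝ) := by exact_mod_cast Nat.factorial_pos v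
  have h : hv p n v = Real.log ((n : ℝ) ^ v * om p v) := by
    unfold hv om Pool.Agent.Helper82.CN.bb
    rw [one_div, Real.log_inv, Real.log_mul (by positivity) (by positivity),
      Real.log_div (by positivity) (by positivity), Real.log_pow, Real.log_pow]
    ring
  rw [h, Real.exp_log]
  unfold om
  positivity

theorem hv_succ (p : ℝ) (n v : ℕ) :
    hv p n (v + 1) = hv p n v + Real.log n - Real.log ((v : ℝ) + 1)
      - v * Pool.Agent.Helper82.CN.bb p := by
  unfold hv
  have h1 : ((v + 1).factorial : ℝ) = ((v : ℝ) + 1) * (v.factorial : ℝ) := by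
    rw [Nat.factorial_succ]; push_cast; ring
  have h2 : (v + 1).choose 2 = v + v.choose 2 := by
    rw [Nat.choose_succ_succ' v 1, Nat.choose_one_right]
  have hf : (0 : ℝ) < (v.factorial : ℝ) := by exact_mod_cast Nat.factorial_pos v
  rw [h1, Real.log_mul (by positivity) (by positivity), h2]
  push_cast
  ring

theorem hv_down {p : ℝ} (hL : 0 ≤ Pool.Agent.Helper82.CN.bb p) (n T : ℕ) :
    ∀ i : ℕ, i < T → hv p n (T - i) ≤ hv p n T
      + i * (Real.log T + Pool.Agent.Helper82.CN.bb p * T - Real.log n)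
      - Pool.Agent.Helper82.CN.bb p * (i : ℝ) ^ 2 / 2 := by
  intro i
  induction i with
  | zero => intro _; simp
  | succ i ih =>
    intro hi
    have h0 := ih (by omega)
    have h1 : T - i = (T - (i + 1)) + 1 := by omega
    have h2 := hv_succ p n (T - (i + 1))
    rw [← h1] at h2
    have hc : ((T - (i + 1) : ℕ) : ℝ) = (T : ℝ) - (i + 1) := by
      rw [Nat.cast_sub (by omega)]; push_cast; ring
    rw [hc] at h2
    have hT : (T : ℝ) - (i + 1) + 1 = (T : ℝ) - i := by ring
    rw [hT] at h2
    have hiT : ((i : ℝ) + 1) < T := by exact_mod_cast hi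
    have hlog : Real.log ((T : ℝ) - i) ≤ Real.log T := by
      apply Real.log_le_log
      · linarith
      · have : (0 : ℝ) ≤ i := Nat.cast_nonneg i
        linarith
    push_cast
    nlinarith

theorem hNIO : StSIZ → StNIO := by
  intro hSIZ p ε hp hp1 hε hε1
  have hp2 : p < 1 := lt_of_le_of_lt hp1 (by
    have : (0 : ℝ) < 1 / Real.exp 2 := by positivity
    linarith)
  have hq : 0 < 1 - p := by linarith
  have hL : 0 < Pool.Agent.Helper82.CN.bb p := by
    unfold Pool.Agent.Helper82.CN.bb
    apply Real.log_pos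
    rw [lt_div_iff₀ hq]; linarith
  obtain ⟨n0, hn0⟩ := hSIZ p ε (12 * ε) 20 hp hp1 hε hε1 (by positivity)
  refine ⟨n0, ?_⟩
  intro n T N th hn hW hTN hNn
  have hS := hn0 n T th hn hW
  set L := Pool.Agent.Helper82.CN.bb p with hLdef
  have hT24 : 24 ≤ T := by have := hS.t4.1; omega
  have hTn : T + 24 ≤ n := by have := hS.t4.2; omega
  have hn1 : 0 < n := by omega
  have hT0 : (0 : ℝ) < T := by exact_mod_cast (by omega : 0 < T)
  have hN0 : (0 : ℝ) < N := by exact_mod_cast (by omega : 0 < N)
  have hnR : (0 : ℝ) < n := by exact_mod_cast hn1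
  have hTN' : (T : ℝ) ≤ N := by exact_mod_cast hTN
  have hNn' : (N : ℝ) ≤ n := by exact_mod_cast hNn
  have hlam : 0 ≤ Real.log n := Real.log_nonneg (by exact_mod_cast hn1)
  set X : ℝ := (N : ℝ) / T with hX
  have hX0 : 0 < X := by positivity
  have hlX : Real.log X = Real.log N - Real.log T := Real.log_div hN0.ne' hT0.ne'
  -- terms
  have hterm : ∀ v : ℕ, xi n T N ^ v * om p v = Real.exp (v * Real.log X + hv p n v) := by
    intro v
    have : xi n T N = X * n := by unfold xi; rw [hX]; ring
    rw [this, mul_pow, mul_assoc, nio_term hq hn1, Real.exp_add]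
    congr 1
    rw [← Real.log_pow, Real.exp_log (by positivity)]
  have h5 := (abs_le.mp (hS.t5 T (by omega) (by omega))).2
  have hth := hW.2.2
  have hhT : hv p n T ≤ 2 * Real.log n := by
    have : ((T : ℝ) + 1 + th - T) * Real.log n + 12 * ε * Real.log n ≤ 2 * Real.log n := by
      nlinarith
    linarith
  have h2 := abs_le.mp hS.t2
  have h2a := h2.1
  have h2b := h2.2
  have hlTn : 0 ≤ Real.log T := Real.log_nonneg (by exact_mod_cast (by omega : 1 ≤ T))
  set c : ℝ := 3 + Real.log ((n : ℝ) / N) with hc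
  have hcl : Real.log ((n : ℝ) / N) = Real.log n - Real.log N := Real.log_div hnR.ne' hN0.ne'
  have hc0 : 0 ≤ c := by
    rw [hc, hcl]
    have := Real.log_le_log hN0 hNn'
    linarith
  set E : ℝ := c ^ 2 / (2 * L) with hE
  have hE0 : 0 ≤ E := by positivity
  set B : ℝ := Real.exp (T * Real.log X + 2 * Real.log n + E) with hB
  have hB0 : 0 < B := Real.exp_pos _
  have hmain : ∀ v ∈ Icc 1 T, xi n T N ^ v * om p v ≤ B := by
    intro v hv'
    rw [mem_Icc] at hv'
    obtain ⟨i, hi, rfl⟩ : ∃ i, i < T ∧ v = T - i := ⟨T - v, by omega, by omega⟩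
    rw [hterm, hB]
    apply Real.exp_le_exp.mpr
    have hd := hv_down hL.le n T i hi
    have hci : ((T - i : ℕ) : ℝ) = (T : ℝ) - i := by rw [Nat.cast_sub (by omega)]
    rw [hci]
    have hi0 : (0 : ℝ) ≤ i := Nat.cast_nonneg i
    have hk : (i : ℝ) * (Real.log T + L * T - Real.log n) ≤
        i * (Real.log n - Real.log T + 3) := by
      apply mul_le_mul_of_nonneg_left _ hi0
      linarith
    have hsq : (i : ℝ) * c - L * (i : ℝ) ^ 2 / 2 ≤ E := by
      rw [hE, le_div_iff₀ (by positivity)]
      nlinarith [sq_nonneg (L * (i : ℝ) - c)]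
    have e1 : (i : ℝ) * c = i * 3 + i * (Real.log n - Real.log N) := by rw [hc, hcl]; ring
    have e2 : ((T : ℝ) - i) * Real.log X = T * Real.log X - i * (Real.log N - Real.log T) := by
      rw [hlX]; ring
    rw [e2]
    nlinarith
  have htop : xi n T N ^ (T + 1) * om p (T + 1) ≤ Real.exp 3 * B := by
    rw [hterm, hB, ← Real.exp_add]
    apply Real.exp_le_exp.mpr
    rw [hv_succ]
    push_cast
    have h1 : Real.log T ≤ Real.log ((T : ℝ) + 1) := Real.log_le_log hT0 (by linarith)
    have h3 : Real.log N ≤ Real.log n := Real.log_le_log hN0 hNn'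
    have e2 : ((T : ℝ) + 1) * Real.log X = T * Real.log X + (Real.log N - Real.log T) := by
      rw [hlX]; ring
    rw [e2]
    have h4 : (T : ℝ) * L = L * T := mul_comm _ _
    rw [h4]
    linarith
  have hBval : B = (n : ℝ) ^ 2 * ((N : ℝ) / T) ^ T * Real.exp E := by
    rw [hB, Real.exp_add, Real.exp_add, ← hX]
    rw [show (T : ℝ) * Real.log X = Real.log (X ^ T) from (Real.log_pow X T).symm,
      show (2 : ℝ) * Real.log n = Real.log ((n : ℝ) ^ 2) from by rw [Real.log_pow]; norm_num,
      Real.exp_log (by positivity), Real.exp_log (by positivity)]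
    ring
  have he3 : Real.exp 3 ≤ 21 := by
    have h := Real.exp_one_lt_d9
    have h' : Real.exp 3 = Real.exp 1 ^ 3 := by
      rw [← Real.exp_nat_mul]; norm_num
    rw [h']
    have h0 : 0 < Real.exp 1 := Real.exp_pos 1
    calc Real.exp 1 ^ 3 ≤ (2.7182818286 : ℝ) ^ 3 := by
          apply pow_le_pow_left₀ h0.le h.le
      _ ≤ 21 := by norm_num
  have hE1 : 1 ≤ Real.exp E := Real.one_le_exp hE0
  constructor
  · have hsplit : Icc 1 (T + 1) = insert (T + 1) (Icc 1 T) := by
      ext x; simp only [mem_insert, mem_Icc]; omega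
    unfold Om
    rw [hsplit, Finset.sum_insert (by simp)]
    have hs : ∑ v ∈ Icc 1 T, xi n T N ^ v * om p v ≤ T * B := by
      refine (Finset.sum_le_card_nsmul _ _ B hmain).trans ?_
      rw [Nat.card_Icc, nsmul_eq_mul]
      simp
    have hsum : Real.exp 3 * B + T * B ≤ n * B := by
      have : Real.exp 3 + T ≤ n := by
        have : (T : ℝ) + 24 ≤ n := by exact_mod_cast hTn
        linarith
      nlinarith
    have hfin : (n : ℝ) * B = (n : ℝ) ^ 3 * ((N : ℝ) / T) ^ T *
        Real.exp ((3 + Real.log ((n : ℝ) / N)) ^ 2 / (2 * Pool.Agent.Helper82.CN.bb p)) := by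
      rw [hBval, hE]; ring
    rw [← hfin]
    linarith
  · have h1 : xi n T N ^ 1 * om p 1 = X * n := by
      unfold om xi
      rw [hX]
      simp
      ring
    have h2 : (n : ℝ) ≤ X * n := by
      have : 1 ≤ X := by rw [hX, le_div_iff₀ hT0]; linarith
      nlinarith
    rw [← h1] at h2
    refine h2.trans ?_
    unfold Om
    refine Finset.single_le_sum (f := fun v => xi n T N ^ v * om p v) ?_
      (by rw [mem_Icc]; omega : (1 : ℕ) ∈ Icc 1 (T + 1))
    intro v _
    rw [hterm]
    exact (Real.exp_pos _).le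

end Pool.Agent.Helper94.UX
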